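import Pool.Agent.KS.Glu
import Pool.Agent.KS.Blo
import Pool.Agent.KS.Str

/-!
# Birational structures on the surfaces with a global spherical shell

Every compact complex surface with a global spherical shell, that is every compact surface given by
Kato's construction and every blowing up of such a surface, has a birational structure.

The contracting germ `F = π ∘ σ` of Kato's construction is conjugate to the germ of a birational
map of the plane. If the derivative of `F` at the origin is nilpotent, or if `F` is invertible,
this follows from finite determinacy and from the fact that the jets of the germs of the Cremona
group are arbitrary; otherwise one finds an invariant affine structure along the fibres of the
invariant function. The charts at the points over the origin are compared with this conjugacy.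
-/

set_option autoImplicit false

namespace Pool.Agent.Results.MP_686bb6_ag.KatoSurfaces

open Pool.Agent.KS

/-- The local form of the theorem. -/
theorem gss_loc {X : Surf} (h : IsGSS X) : LocBir X := by
  induction h with
  | kato K => exact kato_loc K
  | blow ρ p _ hb ih => exact loc_blow hb ih

/-- Every compact complex surface with a global spherical shell has a birational structure. -/
theorem result (X : Surf) [CompactSpace X.carrier] (h : IsGSS X) : BirStr X :=
  strong (gss_loc h)

end Pool.Agent.Results.MP_686bb6_ag.KatoSurfaces
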